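import Mathlib

set_option autoImplicit false
set_option linter.unusedVariables false

universe u v w

open FirstOrder CategoryTheory

namespace Pool.Agent.Results.MP_ae912c_co.TwoSunflower

open FirstOrder.Language

variable {L : FirstOrder.Language.{u, v}}

/-- The strong amalgamation property of a class `K` of `L`-structures. -/
def StrongAmalgamation (K : Set (Bundled.{w} L.Structure)) : Prop :=
  ∀ (A B₀ B₁ : Bundled.{w} L.Structure) (f₀ : A ↪[L] B₀) (f₁ : A ↪[L] B₁),
    A ∈ K → B₀ ∈ K → B₁ ∈ K →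
    ∃ (C : Bundled.{w} L.Structure) (g₀ : B₀ ↪[L] C) (g₁ : B₁ ↪[L] C),
      C ∈ K ∧ g₀.comp f₀ = g₁.comp f₁ ∧
        Set.range g₀ ∩ Set.range g₁ = Set.range (g₀.comp f₀)

/-- A set `S` of finite sets is a sunflower: all its distinct members meet in one common set. -/
def IsSunflower {U : Type w} (S : Set (Finset U)) : Prop :=
  ∃ c : Set U, ∀ x ∈ S, ∀ y ∈ S, x ≠ y → (x : Set U) ∩ (y : Set U) = c

/-- The finite `k`-sunflower property of a class `K` of `L`-structures: for every `B` in `K` there
is `C` in `K` such that every structure on `k`-sets isomorphic to `C` (an `L`-structure whose domain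
is a set `D` of `k`-element sets) has a substructure isomorphic to `B` whose domain is a
sunflower. -/
def FiniteSunflowerProperty (K : Set (Bundled.{w} L.Structure)) (k : ℕ) : Prop :=
  ∀ B ∈ K, ∃ C ∈ K, ∀ (U : Type w) (D : Set (Finset U)) (_ : ∀ x ∈ D, x.card = k)
    (_ : L.Structure D), Nonempty (C ≃[L] D) →
      ∃ B' : L.Substructure D, Nonempty (B ≃[L] B') ∧
        IsSunflower ((fun x : D => (x : Finset U)) '' (B' : Set D))

/-- `g` is constant or injective. -/
def CI {A : Type*} {α : Type*} (g : A → α) : Prop :=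
  (∀ x y, g x = g y) ∨ Function.Injective g

/-- The canonical vertex partition property. -/
def Canon (K : Set (Bundled.{w} L.Structure)) : Prop :=
  ∀ B ∈ K, ∃ C ∈ K, ∀ (α : Type w) (χ : C → α), ∃ g : B ↪[L] C, CI (χ ∘ g)

lemma canon_of_two {K : Set (Bundled.{w} L.Structure)} (h : FiniteSunflowerProperty K 2) :
    Canon K := by
  classical
  intro B hB
  obtain ⟨C, hC, hCB⟩ := h B hB
  refine ⟨C, hC, ?_⟩
  intro α χ
  let e : C → Finset (C ⊕ α) := fun x => {Sum.inl x, Sum.inr (χ x)}
  have he : Function.Injective e := by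
    intro x y hxy
    have : (Sum.inl x : C ⊕ α) ∈ e y := by
      rw [← hxy]; simp [e]
    simpa [e] using this
  let E : C ≃ Set.range e := Equiv.ofInjective e he
  let _ : L.Structure (Set.range e) := E.inducedStructure
  obtain ⟨B', ⟨i⟩, c, hc⟩ := hCB (C ⊕ α) (Set.range e)
    (by rintro _ ⟨x, rfl⟩; simp [e]) E.inducedStructure ⟨E.inducedStructureEquiv⟩
  let F : C ≃[L] Set.range e := E.inducedStructureEquiv
  have hF : ∀ x, ((F x : Set.range e) : Finset (C ⊕ α)) = e x := by
    intro x
    have : (F x) = E x := by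
      have := congrFun (Equiv.toFun_inducedStructureEquiv (L := L) E) x
      exact this
    rw [this]
    simp [E]
  let g : B ↪[L] C := F.symm.toEmbedding.comp (B'.subtype.comp i.toEmbedding)
  have hg : ∀ x : B, e (g x) = ((i x : B') : Set.range e) := by
    intro x
    have h1 : F (g x) = ((i x : B') : Set.range e) := by
      simp [g]
    rw [← hF, h1]
  have key : ∀ x y : B, x ≠ y → ((e (g x) : Finset (C ⊕ α)) : Set (C ⊕ α)) ∩ e (g y) = c := by
    intro x y hxy
    rw [hg x, hg y]
    refine hc _ ⟨_, (i x).2, rfl⟩ _ ⟨_, (i y).2, rfl⟩ ?_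
    intro heq
    apply hxy
    have : ((i x : B') : Set.range e) = ((i y : B') : Set.range e) := Subtype.ext heq
    exact i.injective (Subtype.ext this)
  refine ⟨g, ?_⟩
  by_cases hex : ∃ x₀ y₀ : B, x₀ ≠ y₀ ∧ χ (g x₀) = χ (g y₀)
  · left
    obtain ⟨x₀, y₀, hne, heq⟩ := hex
    have hmem : (Sum.inr (χ (g x₀)) : C ⊕ α) ∈ c := by
      rw [← key x₀ y₀ hne]
      refine ⟨by simp [e], by simp [e, heq]⟩
    have hall : ∀ x y : B, x ≠ y → χ (g x) = χ (g x₀) := by
      intro x y hxy
      rw [← key x y hxy] at hmem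
      have := hmem.1
      simp [e] at this
      exact this.symm
    intro x y
    by_cases hxy : x = y
    · rw [hxy]
    · simp only [Function.comp]
      rw [hall x y hxy, hall y x (Ne.symm hxy)]
  · right
    push Not at hex
    intro x y hxy
    by_contra hne
    exact hex x y hne hxy

lemma canon_iter {K : Set (Bundled.{w} L.Structure)} (h : Canon K) (m : ℕ) :
    ∀ B ∈ K, ∃ C ∈ K, ∀ (α : Type w) (f : Fin m → C → α),
      ∃ g : B ↪[L] C, ∀ i, CI (f i ∘ g) := by
  induction m with
  | zero =>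
    intro B hB
    exact ⟨B, hB, fun α f => ⟨Language.Embedding.refl L B, fun i => i.elim0⟩⟩
  | succ m ih =>
    intro B hB
    obtain ⟨C₁, hC₁, h₁⟩ := ih B hB
    obtain ⟨C, hC, h₂⟩ := h C₁ hC₁
    refine ⟨C, hC, ?_⟩
    intro α f
    obtain ⟨g₀, hg₀⟩ := h₂ α (f 0)
    obtain ⟨g₁, hg₁⟩ := h₁ α (fun i => f i.succ ∘ g₀)
    refine ⟨g₀.comp g₁, ?_⟩
    intro i
    refine Fin.cases ?_ (fun i => ?_) i
    · rcases hg₀ with hc | hi
      · left; intro x y; exact hc (g₁ x) (g₁ y)
      · right; exact hi.comp g₁.injective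
    · exact hg₁ i

/-- In a class with strong amalgamation, every nonempty structure extends to
arbitrarily large structures of the class. -/
lemma exists_large [L.IsRelational] {K : Set (Bundled.{w} L.Structure)} [IsFraisse K]
    (hs : StrongAmalgamation K) (B : Bundled.{w} L.Structure) (hB : B ∈ K) [hne : Nonempty B]
    (P : ℕ) :
    ∃ C ∈ K, Nonempty (B ↪[L] C) ∧ ∃ S : Finset C, P ≤ S.card := by
  classical
  induction P with
  | zero => exact ⟨B, hB, ⟨Language.Embedding.refl L B⟩, ∅, Nat.zero_le _⟩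
  | succ P ih =>
    obtain ⟨C₁, hC₁, ⟨i₁⟩, S, hS⟩ := ih
    -- the empty structure
    let A : Bundled.{w} L.Structure := ⟨(⊥ : L.Substructure B), inferInstance⟩
    have hA : A ∈ K := by
      refine IsFraisse.hereditary B hB ⟨?_, ⟨(⊥ : L.Substructure B).subtype⟩⟩
      exact (Substructure.fg_iff_structure_fg _).1 Substructure.fg_bot
    have hbot : ∀ b : B, b ∉ (⊥ : L.Substructure B) := by
      intro b hb
      rw [← Substructure.closure_empty, Substructure.mem_closure_iff_of_isRelational] at hb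
      exact hb
    have hAe : IsEmpty A := ⟨fun x => hbot _ x.2⟩
    let s : A ↪[L] B := (⊥ : L.Substructure B).subtype
    obtain ⟨C, g₀, g₁, hC, hcomp, hrange⟩ := hs A C₁ B (i₁.comp s) s hA hC₁ hB
    refine ⟨C, hC, ⟨g₁⟩, ?_⟩
    obtain ⟨b⟩ := hne
    refine ⟨insert (g₁ b) (S.map ⟨g₀, g₀.injective⟩), ?_⟩
    rw [Finset.card_insert_of_notMem, Finset.card_map]
    · omega
    · intro hmem
      rw [Finset.mem_map] at hmem
      obtain ⟨a, _, ha⟩ := hmem
      have : g₁ b ∈ Set.range g₀ ∩ Set.range g₁ := ⟨⟨a, ha⟩, ⟨b, rfl⟩⟩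
      rw [hrange] at this
      obtain ⟨x, _⟩ := this
      exact hAe.elim x

/-- Indivisibility for colourings with boundedly many colours. -/
lemma mono_fin [L.IsRelational] {K : Set (Bundled.{w} L.Structure)} [IsFraisse K]
    (hs : StrongAmalgamation K) (hc : Canon K) (P : ℕ) (B : Bundled.{w} L.Structure)
    (hB : B ∈ K) :
    ∃ C ∈ K, ∀ χ : C → Fin P, ∃ g : B ↪[L] C, ∀ x y, χ (g x) = χ (g y) := by
  classical
  by_cases hne : Nonempty B
  · obtain ⟨B₁, hB₁, ⟨i⟩, S, hS⟩ := exists_large hs B hB (P + 1)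
    obtain ⟨C, hC, h⟩ := hc B₁ hB₁
    refine ⟨C, hC, fun χ => ?_⟩
    obtain ⟨g, hg⟩ := h (ULift.{w} (Fin P)) (fun x => ULift.up (χ x))
    rcases hg with hg | hg
    · refine ⟨g.comp i, fun x y => ?_⟩
      have := hg (i x) (i y)
      exact ULift.up.inj this
    · exfalso
      have h1 : (S.image (fun x => χ (g x))).card = S.card := by
        apply Finset.card_image_of_injective
        intro x y hxy
        apply hg
        simp only [Function.comp]
        exact congrArg ULift.up hxy
      have h2 : (S.image (fun x => χ (g x))).card ≤ P := by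
        simpa using Finset.card_le_univ (S.image (fun x => χ (g x)))
      omega
  · refine ⟨B, hB, fun χ => ⟨Language.Embedding.refl L B, fun x => (hne ⟨x⟩).elim⟩⟩

/-- Greedy colouring of a symmetric relation with at most `Δ` neighbours at each point. -/
lemma greedy {V : Type*} [DecidableEq V] (r : V → V → Prop) [DecidableRel r]
    (hsymm : ∀ x y, r x y → r y x) (Δ : ℕ)
    (s : Finset V) (hdeg : ∀ x ∈ s, (s.filter (r x)).card ≤ Δ) :
    ∃ χ : V → Fin (Δ + 1), ∀ x ∈ s, ∀ y ∈ s, x ≠ y → r x y → χ x ≠ χ y := by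
  induction s using Finset.induction_on with
  | empty => exact ⟨fun _ => 0, by simp⟩
  | insert a s ha ih =>
    obtain ⟨χ, hχ⟩ := ih (by
      intro x hx
      refine le_trans (Finset.card_le_card ?_) (hdeg x (Finset.mem_insert_of_mem hx))
      exact Finset.filter_subset_filter _ (Finset.subset_insert _ _))
    have hcard : ((s.filter (r a)).image χ).card < Fintype.card (Fin (Δ + 1)) := by
      rw [Fintype.card_fin]
      refine Nat.lt_succ_of_le (le_trans Finset.card_image_le ?_)
      refine le_trans (Finset.card_le_card ?_) (hdeg a (Finset.mem_insert_self _ _))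
      exact Finset.filter_subset_filter _ (Finset.subset_insert _ _)
    obtain ⟨t, ht⟩ : ∃ t : Fin (Δ + 1), t ∉ (s.filter (r a)).image χ := by
      by_contra hall
      push Not at hall
      have : (s.filter (r a)).image χ = Finset.univ := Finset.eq_univ_of_forall hall
      rw [this, Finset.card_univ] at hcard
      exact lt_irrefl _ hcard
    refine ⟨Function.update χ a t, ?_⟩
    intro x hx y hy hxy hr
    rw [Finset.mem_insert] at hx hy
    rcases hx with rfl | hx
    · rcases hy with rfl | hy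
      · exact absurd rfl hxy
      · have hya : y ≠ x := fun h => hxy h.symm
        rw [Function.update_self, Function.update_of_ne hya]
        intro heq
        apply ht
        rw [heq]
        exact Finset.mem_image_of_mem _ (Finset.mem_filter.2 ⟨hy, hr⟩)
    · rcases hy with rfl | hy
      · rw [Function.update_self, Function.update_of_ne hxy]
        intro heq
        apply ht
        rw [← heq]
        exact Finset.mem_image_of_mem _ (Finset.mem_filter.2 ⟨hx, hsymm _ _ hr⟩)
      · have hxa : x ≠ a := fun h => ha (h ▸ hx)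
        have hya : y ≠ a := fun h => ha (h ▸ hy)
        rw [Function.update_of_ne hxa, Function.update_of_ne hya]
        exact hχ x hx y hy hxy hr

lemma sunflower_of_canon [L.IsRelational] {K : Set (Bundled.{w} L.Structure)} [IsFraisse K]
    (hs : StrongAmalgamation K) (hc : Canon K) (k : ℕ) : FiniteSunflowerProperty K k := by
  classical
  intro B hB
  obtain ⟨B₁, hB₁, hmono⟩ := mono_fin hs hc (k ^ 2 + 1) B hB
  obtain ⟨C, hC, hiter⟩ := canon_iter hc k B₁ hB₁
  refine ⟨C, hC, ?_⟩
  intro U D hD hstr ⟨F⟩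
  have : Finite B₁ := by
    have h1 := IsFraisse.FG (K := K) B₁ hB₁
    exact h1.finite
  have := Fintype.ofFinite B₁
  -- enumerate the elements of the `k`-sets
  let en : ∀ x : C, Fin k ≃ ((F x : D) : Finset U) := fun x =>
    (((F x : D) : Finset U).equivFinOfCardEq (hD _ (F x).2)).symm
  let f : Fin k → C → U := fun i x => (en x i : U)
  have hf : ∀ (x : C) (u : U), u ∈ ((F x : D) : Finset U) ↔ ∃ i, f i x = u := by
    intro x u
    constructor
    · intro hu
      exact ⟨(en x).symm ⟨u, hu⟩, by simp [f]⟩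
    · rintro ⟨i, rfl⟩
      exact (en x i).2
  obtain ⟨g, hg⟩ := hiter U f
  -- conflicts
  let r : B₁ → B₁ → Prop := fun x y => ∃ i j, Function.Injective (f i ∘ g) ∧
    Function.Injective (f j ∘ g) ∧ f i (g x) = f j (g y)
  have hsymm : ∀ x y, r x y → r y x := by
    rintro x y ⟨i, j, hi, hj, h⟩
    exact ⟨j, i, hj, hi, h.symm⟩
  have hdeg : ∀ x ∈ (Finset.univ : Finset B₁), ((Finset.univ : Finset B₁).filter (r x)).card
      ≤ k ^ 2 := by
    intro x _
    have hsub : (Finset.univ : Finset B₁).filter (r x) ⊆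
        (Finset.univ : Finset (Fin k × Fin k)).biUnion (fun p => (Finset.univ : Finset B₁).filter
          (fun y => Function.Injective (f p.2 ∘ g) ∧ f p.1 (g x) = f p.2 (g y))) := by
      intro y hy
      obtain ⟨i, j, hi, hj, h⟩ := (Finset.mem_filter.1 hy).2
      simp only [Finset.mem_biUnion, Finset.mem_filter, Finset.mem_univ, true_and]
      exact ⟨(i, j), hj, h⟩
    refine le_trans (Finset.card_le_card hsub) ?_
    refine le_trans (Finset.card_biUnion_le_card_mul _ _ 1 ?_) ?_
    · intro p _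
      rw [Finset.card_le_one]
      intro y hy z hz
      have h1 := (Finset.mem_filter.1 hy).2
      have h2 := (Finset.mem_filter.1 hz).2
      exact h1.1 (h1.2.symm.trans h2.2)
    · simp [sq]
  obtain ⟨χ, hχ⟩ := greedy r hsymm (k ^ 2) Finset.univ hdeg
  obtain ⟨g₂, hg₂⟩ := hmono χ
  -- the embedding into `D`
  let h : B ↪[L] D := F.toEmbedding.comp (g.comp g₂)
  refine ⟨h.toHom.range, ⟨h.equivRange⟩, ?_⟩
  refine ⟨{u | ∃ i, (∀ x y : B, f i (g (g₂ x)) = f i (g (g₂ y))) ∧ ∃ x : B, f i (g (g₂ x)) = u},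
    ?_⟩
  rintro _ ⟨X, hX, rfl⟩ _ ⟨Y, hY, rfl⟩ hXY
  obtain ⟨x, rfl⟩ := hX
  obtain ⟨y, rfl⟩ := hY
  have hxy : x ≠ y := by
    rintro rfl
    exact hXY rfl
  have hx : ((h.toHom x : D) : Finset U) = ((F (g (g₂ x)) : D) : Finset U) := rfl
  have hy : ((h.toHom y : D) : Finset U) = ((F (g (g₂ y)) : D) : Finset U) := rfl
  ext u
  simp only [Set.mem_inter_iff, Finset.mem_coe, Set.mem_ofPred_eq]
  rw [hx, hy, hf, hf]
  constructor
  · rintro ⟨⟨i, hi⟩, ⟨j, hj⟩⟩
    rcases hg i with hci | hii
    · exact ⟨i, fun a b => hci _ _, x, hi⟩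
    · rcases hg j with hcj | hij
      · exact ⟨j, fun a b => hcj _ _, y, hj⟩
      · exfalso
        have hne : g₂ x ≠ g₂ y := fun he => hxy (g₂.injective he)
        exact hχ (g₂ x) (Finset.mem_univ _) (g₂ y) (Finset.mem_univ _) hne
          ⟨i, j, hii, hij, hi.trans hj.symm⟩ (hg₂ x y)
  · rintro ⟨i, hi, z, hz⟩
    exact ⟨⟨i, (hi x z).trans hz⟩, ⟨i, (hi y z).trans hz⟩⟩

/-- For a relational Fraïssé class with strong amalgamation, the finite `2`-sunflower property and
the finite sunflower property (that is, the finite `k`-sunflower property for all `k ≥ 1`) are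
equivalent. -/
theorem result (L : FirstOrder.Language.{u, v}) [L.IsRelational]
    (K : Set (Bundled.{w} L.Structure)) [IsFraisse K] (hK : StrongAmalgamation K) :
    FiniteSunflowerProperty K 2 ↔ ∀ k : ℕ, 1 ≤ k → FiniteSunflowerProperty K k :=
  ⟨fun h k _ => sunflower_of_canon hK (canon_of_two h) k, fun h => h 2 (by norm_num)⟩

end Pool.Agent.Results.MP_ae912c_co.TwoSunflower
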